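import Pool.Agent.Helper35.PQF.St

set_option autoImplicit false

/-! Project PM, module GR1: many conjugacy classes in a surface group. -/

namespace Helper41.PM

open Pool.Agent.Helper35.PM

section

variable (n : ℕ)

/-- Permutations of the form `(i, s) ↦ (i + j, s + h i)`. -/
def HH : Subgroup (Equiv.Perm (ZMod n × ZMod 2)) where
  carrier := {σ | ∃ (j : ZMod n) (h : ZMod n → ZMod 2), ∀ i s, σ (i, s) = (i + j, s + h i)}
  mul_mem' := by
    rintro σ τ ⟨j, h, h1⟩ ⟨j', h', h2⟩
    refine ⟨j' + j, fun i => h' i + h (i + j'), fun i s => ?_⟩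
    rw [Equiv.Perm.mul_apply, h2, h1]
    simp only [add_assoc]
  one_mem' := ⟨0, fun _ => 0, fun i s => by simp⟩
  inv_mem' := by
    rintro σ ⟨j, h, h1⟩
    refine ⟨-j, fun i => -h (i - j), fun i s => ?_⟩
    rw [Equiv.Perm.inv_eq_iff_eq, h1]
    refine Prod.ext ?_ ?_
    · show i = i + -j + j
      ring
    · show s = s + -h (i - j) + h (i + -j)
      rw [← sub_eq_add_neg i j]
      ring

/-- The permutation `(i, s) ↦ (i + 1, s + h i)`. -/
def gp (h : ZMod n → ZMod 2) : Equiv.Perm (ZMod n × ZMod 2) where
  toFun x := (x.1 + 1, x.2 + h x.1)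
  invFun x := (x.1 - 1, x.2 - h (x.1 - 1))
  left_inv x := by simp
  right_inv x := by simp

lemma gp_mem (h : ZMod n → ZMod 2) : gp n h ∈ HH n := ⟨1, h, fun _ _ => rfl⟩

open Classical in
/-- The image of the letter `a` (`true`) or `b` (`false`). -/
noncomputable def lt (x : Bool) : HH n :=
  ⟨gp n (fun i => if x = false ∧ i = 0 then 1 else 0), gp_mem n _⟩

open Classical in
/-- The function of a word. -/
noncomputable def FF : List Bool → ZMod n → ZMod 2
  | [], _ => 0
  | x :: l, i => FF l i + if x = false ∧ i + (l.length : ZMod n) = 0 then 1 else 0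

lemma act (l : List Bool) (i : ZMod n) (s : ZMod 2) :
    (((l.map (lt n)).prod : HH n) : Equiv.Perm (ZMod n × ZMod 2)) (i, s) =
      (i + (l.length : ZMod n), s + FF n l i) := by
  induction l generalizing i s with
  | nil => simp [FF]
  | cons x l ih =>
    rw [List.map_cons, List.prod_cons, Subgroup.coe_mul, Equiv.Perm.mul_apply, ih]
    show (gp n (fun i => if x = false ∧ i = 0 then 1 else 0)) (i + (l.length : ZMod n),
      s + FF n l i) = _
    simp only [gp, Equiv.coe_fn_mk, FF, List.length_cons]
    push_cast
    refine Prod.ext ?_ ?_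
    · simp only
      ring
    · simp only
      ring

lemma FF_zero (l : List Bool) (i : ZMod n) (h : ∀ m < l.length, i + (m : ZMod n) ≠ 0) :
    FF n l i = 0 := by
  induction l with
  | nil => rfl
  | cons x l ih =>
    rw [FF, ih fun m hm => h m (by simp; omega), if_neg, add_zero]
    rintro ⟨-, h1⟩
    exact h l.length (by simp) h1

lemma FF_inj (l l' : List Bool) (hl : l.length = l'.length) (hn : l.length ≤ n)
    (h : ∀ i, FF n l i = FF n l' i) : l = l' := by
  induction l generalizing l' with
  | nil =>
    cases l' with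
    | nil => rfl
    | cons y l' => simp at hl
  | cons x l ih =>
    cases l' with
    | nil => simp at hl
    | cons y l' =>
      simp only [List.length_cons, Nat.add_right_cancel_iff] at hl hn
      have h0 : ∀ m < l.length, (-(l.length : ZMod n)) + (m : ZMod n) ≠ 0 := by
        intro m hm h1
        have h2 : ((m : ℕ) : ZMod n) = (l.length : ℕ) := by
          rw [neg_add_eq_zero] at h1
          exact h1.symm
        rw [ZMod.natCast_eq_natCast_iff'] at h2
        rw [Nat.mod_eq_of_lt (by omega), Nat.mod_eq_of_lt (by omega)] at h2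
        omega
      have h1 := h (-(l.length : ZMod n))
      rw [FF, FF, FF_zero n l _ h0, FF_zero n l' _ (by rw [← hl]; exact h0), ← hl] at h1
      have hxy : x = y := by
        cases x <;> cases y <;> simp at h1 ⊢
      subst hxy
      have h2 : l = l' := by
        refine ih l' hl (by omega) fun i => ?_
        have := h i
        rw [FF, FF, hl] at this
        exact add_right_cancel this
      rw [h2]

end

/-- Images of the generators. -/
noncomputable def gen (g n : ℕ) (hg : 2 ≤ g) (x : Fin g × Bool) : HH n :=
  if x = (⟨0, by omega⟩, false) then lt n true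
  else if x = (⟨1, by omega⟩, false) then lt n false else 1

lemma rel_one (g n : ℕ) (hg : 2 ≤ g) :
    ∀ r ∈ ({relator g} : Set (FreeGroup (Fin g × Bool))),
      FreeGroup.lift (gen g n hg) r = 1 := by
  intro r hr
  rw [Set.mem_singleton_iff] at hr
  subst hr
  unfold relator
  rw [map_list_prod, List.map_ofFn]
  refine List.prod_eq_one ?_
  intro y hy
  rw [List.mem_ofFn] at hy
  obtain ⟨i, rfl⟩ := hy
  have h1 : gen g n hg (i, true) = 1 := by
    unfold gen
    rw [if_neg (by simp), if_neg (by simp)]
  simp [h1]

theorem gr1 : St_GR1 := by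
  classical
  intro g hg
  refine ⟨PresentedGroup.of (⟨0, by omega⟩, false), PresentedGroup.of (⟨1, by omega⟩, false),
    fun n hn => ?_⟩
  have : NeZero n := ⟨by omega⟩
  let φ : SurfaceGroup g →* HH n := PresentedGroup.toGroup (rel_one g n hg)
  set a : SurfaceGroup g := PresentedGroup.of (⟨0, by omega⟩, false) with ha
  set b : SurfaceGroup g := PresentedGroup.of (⟨1, by omega⟩, false) with hb
  have hφa : φ a = lt n true := by
    rw [ha]
    show PresentedGroup.toGroup (rel_one g n hg) _ = _
    rw [PresentedGroup.toGroup.of]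
    unfold gen
    rw [if_pos rfl]
  have hφb : φ b = lt n false := by
    rw [hb]
    show PresentedGroup.toGroup (rel_one g n hg) _ = _
    rw [PresentedGroup.toGroup.of]
    unfold gen
    rw [if_neg (by simp), if_pos rfl]
  let wd : (Fin n → Bool) → SurfaceGroup g := fun w =>
    (List.ofFn (fun i => if w i then a else b)).prod
  have hφw : ∀ w, φ (wd w) = ((List.ofFn w).map (lt n)).prod := by
    intro w
    show φ (List.ofFn (fun i => if w i then a else b)).prod = _
    rw [map_list_prod, List.map_ofFn, List.map_ofFn]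
    congr 2
    funext i
    simp only [Function.comp_apply]
    cases w i <;> simp [hφa, hφb]
  let cl : (Fin n → Bool) → ConjClasses (SurfaceGroup g) := fun w => ConjClasses.mk (wd w)
  have hrot : ∀ w w', cl w = cl w' → ∃ j : ZMod n, ∀ i,
      FF n (List.ofFn w) i = FF n (List.ofFn w') (i + j) := by
    intro w w' h
    have h1 : IsConj (wd w) (wd w') := ConjClasses.mk_eq_mk_iff_isConj.mp h
    have h2 : IsConj (φ (wd w)) (φ (wd w')) := φ.map_isConj h1
    rw [hφw, hφw, isConj_iff] at h2
    obtain ⟨⟨c, j, hh, hc⟩, hcc⟩ := h2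
    refine ⟨j, fun i => ?_⟩
    rw [mul_inv_eq_iff_eq_mul] at hcc
    have h3 := congrArg (fun σ : HH n => (σ : Equiv.Perm (ZMod n × ZMod 2)) (i, 0)) hcc
    simp only [Subgroup.coe_mul, Equiv.Perm.mul_apply] at h3
    rw [act, hc, hc, act] at h3
    have h4 := congrArg Prod.snd h3
    simp only [List.length_ofFn, CharP.cast_eq_zero, add_zero, zero_add] at h4
    rw [add_comm] at h4
    exact add_left_cancel h4
  have hinj : ∀ w w' : Fin n → Bool, (∀ i, FF n (List.ofFn w) i = FF n (List.ofFn w') i) → w = w' := by
    intro w w' h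
    have := FF_inj n (List.ofFn w) (List.ofFn w') (by simp) (by simp) h
    exact List.ofFn_injective this
  have hset : {c : ConjClasses (SurfaceGroup g) | ∃ w : Fin n → Bool,
      c = ConjClasses.mk (List.ofFn (fun i => if w i then a else b)).prod} =
      ((Finset.univ.image cl : Finset _) : Set (ConjClasses (SurfaceGroup g))) := by
    ext c
    simp only [Set.mem_ofPred_eq, Finset.coe_image, Finset.coe_univ, Set.image_univ, Set.mem_range]
    constructor
    · rintro ⟨w, rfl⟩
      exact ⟨w, rfl⟩
    · rintro ⟨w, rfl⟩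
      exact ⟨w, rfl⟩
  rw [hset, Set.ncard_coe_finset]
  have hcard : (Finset.univ : Finset (Fin n → Bool)).card = 2 ^ n := by simp
  rw [← hcard]
  refine Finset.card_le_mul_card_image _ n ?_
  intro c hc
  rw [Finset.mem_image] at hc
  obtain ⟨w0, -, rfl⟩ := hc
  choose! J hJ using fun w (h : cl w = cl w0) => hrot w w0 h
  have h5 : (Finset.univ.filter fun w => cl w = cl w0).card ≤
      (Finset.univ : Finset (ZMod n)).card := by
    refine Finset.card_le_card_of_injOn J (fun _ _ => Finset.mem_univ _) ?_
    intro w hw w' hw' h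
    simp only [Finset.coe_filter, Finset.mem_univ, true_and, Set.mem_ofPred_eq] at hw hw'
    refine hinj w w' fun i => ?_
    rw [hJ w hw, hJ w' hw', h]
  rwa [Finset.card_univ, ZMod.card] at h5

end Helper41.PM
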