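import Pool.Agent.Helper62.PM.St2

set_option autoImplicit false

open MeasureTheory Metric Set Filter Topology Polynomial
open scoped RealInnerProductSpace ContDiff

namespace Pool.Agent.Helper41.PM

open Pool.Agent.Helper62.PM
open Pool.Agent.Helper62.Mink

/-- the uniform estimate with constants `ε`, `K` -/
private def Est {n : ℕ} (A : (E n → ℝ) → E n → ℝ) (ε K : ℝ) : Prop :=
  ∀ (h h' : E n → ℝ) (R δ : ℝ), S1 h → Sublinear h → S1 h' →
    Sublinear h' → (∀ x : E n, ‖x‖ = 1 → |h x| ≤ R) → (∀ x : E n, ‖x‖ = 1 → |h' x| ≤ R) →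
    (∀ x : E n, ‖x‖ = 1 → |h x - h' x| ≤ δ) → ∀ x : E n, ‖x‖ = 1 → |A h x - A h' x| ≤ ε * R + K * δ

/-- `g` is the limit of `A (s j)`, `s j` smooth sublinear, `s j → h` -/
private def Dt {n : ℕ} (A : (E n → ℝ) → E n → ℝ) (h g : E n → ℝ) : Prop :=
  ∃ (s : ℕ → E n → ℝ) (e : ℕ → ℝ), Tendsto e atTop (𝓝 0) ∧ (∀ j, S1 (s j) ∧ Sublinear (s j)) ∧
    (∀ j x, |s j x - h x| ≤ e j * ‖x‖) ∧ ∀ x, Tendsto (fun j => A (s j) x) atTop (𝓝 (g x))

private lemma sph_bd {n : ℕ} {h : E n → ℝ} (hh : Sublinear h) :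
    ∃ M : ℝ, 0 ≤ M ∧ ∀ w : E n, ‖w‖ = 1 → |h w| ≤ M := by
  obtain ⟨M, hM⟩ := (isCompact_sphere (0 : E n) 1).exists_bound_of_continuousOn
    hh.continuous.continuousOn
  refine ⟨max M 0, le_max_right _ _, fun w hw => ?_⟩
  exact (hM w (by simpa using hw)).trans (le_max_left _ _)

private lemma hom_ext {n : ℕ} {g g' : E n → ℝ} (hg : Sublinear g) (hg' : Sublinear g') {c : ℝ}
    (H : ∀ x : E n, ‖x‖ = 1 → |g x - g' x| ≤ c) (x : E n) : |g x - g' x| ≤ c * ‖x‖ := by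
  rcases eq_or_ne x 0 with rfl | hx
  · rw [hg.map_zero, hg'.map_zero]; simp
  · have hx' : 0 < ‖x‖ := norm_pos_iff.2 hx
    have h1 := H (‖x‖⁻¹ • x) (by rw [norm_smul, norm_inv, norm_norm, inv_mul_cancel₀ hx'.ne'])
    have h2 : x = ‖x‖ • (‖x‖⁻¹ • x) := by rw [smul_smul, mul_inv_cancel₀ hx'.ne', one_smul]
    have h3 : g x = ‖x‖ * g (‖x‖⁻¹ • x) := by rw [← hg.pos_hom _ hx'.le, ← h2]
    have h4 : g' x = ‖x‖ * g' (‖x‖⁻¹ • x) := by rw [← hg'.pos_hom _ hx'.le, ← h2]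
    rw [h3, h4, ← mul_sub, abs_mul, abs_of_pos hx', mul_comm]
    exact mul_le_mul_of_nonneg_right h1 hx'.le

private lemma Dt.close {n : ℕ} {A : (E n → ℝ) → E n → ℝ} {h g h' g' : E n → ℝ}
    (D : Dt A h g) (D' : Dt A h' g') {ε K R δ : ℝ} (hE : Est A ε K)
    (hR : ∀ x : E n, ‖x‖ = 1 → |h x| ≤ R) (hR' : ∀ x : E n, ‖x‖ = 1 → |h' x| ≤ R)
    (hδ : ∀ x : E n, ‖x‖ = 1 → |h x - h' x| ≤ δ) (x : E n) (hx : ‖x‖ = 1) :
    |g x - g' x| ≤ ε * R + K * δ := by
  obtain ⟨s, e, he, hs, hc, ht⟩ := D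
  obtain ⟨s', e', he', hs', hc', ht'⟩ := D'
  have key : ∀ j, |A (s j) x - A (s' j) x| ≤
      ε * (R + max (e j) (e' j)) + K * (δ + (e j + e' j)) := by
    intro j
    refine hE (s j) (s' j) _ _ (hs j).1 (hs j).2 (hs' j).1 (hs' j).2 ?_ ?_ ?_ x hx
    · intro y hy
      have h1 := hc j y
      rw [hy, mul_one] at h1
      have h2 := hR y hy
      have h3 := le_max_left (e j) (e' j)
      rw [abs_le] at h1 h2 ⊢
      constructor <;> linarith [h1.1, h1.2, h2.1, h2.2]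
    · intro y hy
      have h1 := hc' j y
      rw [hy, mul_one] at h1
      have h2 := hR' y hy
      have h3 := le_max_right (e j) (e' j)
      rw [abs_le] at h1 h2 ⊢
      constructor <;> linarith [h1.1, h1.2, h2.1, h2.2]
    · intro y hy
      have h1 := hc j y
      have h1' := hc' j y
      rw [hy, mul_one] at h1 h1'
      have h2 := hδ y hy
      rw [abs_le] at h1 h1' h2 ⊢
      constructor <;> linarith [h1.1, h1.2, h2.1, h2.2, h1'.1, h1'.2]
  have l1 : Tendsto (fun j => |A (s j) x - A (s' j) x|) atTop (𝓝 |g x - g' x|) :=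
    ((ht x).sub (ht' x)).abs
  have l2 : Tendsto (fun j => ε * (R + max (e j) (e' j)) + K * (δ + (e j + e' j))) atTop
      (𝓝 (ε * (R + max 0 0) + K * (δ + (0 + 0)))) :=
    ((he.max he').const_add R |>.const_mul ε).add (((he.add he').const_add δ).const_mul K)
  have := le_of_tendsto_of_tendsto' l1 l2 key
  simpa using this

private lemma Dt.uniq {n : ℕ} {A : (E n → ℝ) → E n → ℝ} {h g g' : E n → ℝ}
    (hE : ∀ ε : ℝ, 0 < ε → ∃ K : ℝ, 0 ≤ K ∧ Est A ε K) (hh : Sublinear h)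
    (D : Dt A h g) (D' : Dt A h g') (hg : Sublinear g) (hg' : Sublinear g') : g = g' := by
  obtain ⟨R, hR0, hR⟩ := sph_bd hh
  have h1 : ∀ x : E n, ‖x‖ = 1 → |g x - g' x| ≤ 0 := by
    intro x hx
    refine le_of_forall_pos_le_add fun ε hε => ?_
    obtain ⟨K, hK0, hK⟩ := hE (ε / (R + 1)) (by positivity)
    have := D.close D' hK hR hR (δ := 0) (fun y _ => by simp) x hx
    refine this.trans ?_
    have h2 : ε / (R + 1) * R ≤ ε := by
      rw [div_mul_eq_mul_div, div_le_iff₀ (by positivity)]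
      nlinarith
    linarith
  funext x
  have h2 := hom_ext hg hg' h1 x
  rw [zero_mul] at h2
  have h3 : g x - g' x = 0 := abs_eq_zero.1 (le_antisymm h2 (abs_nonneg _))
  linarith

private lemma S1_add {n : ℕ} {φ ψ : E n → ℝ} (hφ : S1 φ) (hψ : S1 ψ) : S1 (fun z => φ z + ψ z) :=
  ⟨fun c hc x => by rw [hφ.hom c hc, hψ.hom c hc]; ring, hφ.smooth.add hψ.smooth⟩

private lemma S1_rot {n : ℕ} (θ : E n ≃ₗᵢ[ℝ] E n) {φ : E n → ℝ} (hφ : S1 φ) :
    S1 (fun z => φ (θ z)) := by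
  refine ⟨fun c hc x => by rw [map_smul, hφ.hom c hc], ?_⟩
  refine hφ.smooth.comp (f := fun z => θ z) θ.contDiff.contDiffOn ?_
  intro x hx hx'
  exact hx (by simpa using hx')

private lemma Sub_add {n : ℕ} {φ ψ : E n → ℝ} (hφ : Sublinear φ) (hψ : Sublinear ψ) :
    Sublinear (fun z => φ z + ψ z) :=
  ⟨fun c hc x => by rw [hφ.pos_hom c hc, hψ.pos_hom c hc]; ring,
    fun x y => by linarith [hφ.add_le x y, hψ.add_le x y]⟩

private lemma Sub_rot {n : ℕ} (θ : E n ≃ₗᵢ[ℝ] E n) {φ : E n → ℝ} (hφ : Sublinear φ) :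
    Sublinear (fun z => φ (θ z)) :=
  ⟨fun c hc x => by rw [map_smul, hφ.pos_hom c hc],
    fun x y => by rw [map_add]; exact hφ.add_le _ _⟩

private lemma Dt.add {n : ℕ} {A : (E n → ℝ) → E n → ℝ}
    (hA : ∀ φ ψ : E n → ℝ, S1 φ → S1 ψ → ∀ x, A (fun z => φ z + ψ z) x = A φ x + A ψ x)
    {h g h' g' : E n → ℝ} (D : Dt A h g) (D' : Dt A h' g') :
    Dt A (fun z => h z + h' z) (fun z => g z + g' z) := by
  obtain ⟨s, e, he, hs, hc, ht⟩ := D
  obtain ⟨s', e', he', hs', hc', ht'⟩ := D'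
  refine ⟨fun j z => s j z + s' j z, fun j => e j + e' j, by simpa using he.add he',
    fun j => ⟨S1_add (hs j).1 (hs' j).1, Sub_add (hs j).2 (hs' j).2⟩, ?_, ?_⟩
  · intro j x
    have h1 := hc j x
    have h2 := hc' j x
    have e1 : s j x + s' j x - (h x + h' x) = (s j x - h x) + (s' j x - h' x) := by ring
    simp only [e1]
    rw [add_mul]
    exact (abs_add_le _ _).trans (add_le_add h1 h2)
  · intro x
    have := (ht x).add (ht' x)
    refine this.congr fun j => ?_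
    rw [hA _ _ (hs j).1 (hs' j).1]

private lemma Dt.rot {n : ℕ} {A : (E n → ℝ) → E n → ℝ} (θ : E n ≃ₗᵢ[ℝ] E n)
    (hA : ∀ φ : E n → ℝ, S1 φ → ∀ x, A (fun z => φ (θ z)) x = A φ (θ x))
    {h g : E n → ℝ} (D : Dt A h g) : Dt A (fun z => h (θ z)) (fun z => g (θ z)) := by
  obtain ⟨s, e, he, hs, hc, ht⟩ := D
  refine ⟨fun j z => s j (θ z), e, he, fun j => ⟨S1_rot θ (hs j).1, Sub_rot θ (hs j).2⟩, ?_, ?_⟩
  · intro j x
    have h1 := hc j (θ x)
    rwa [LinearIsometryEquiv.norm_map] at h1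
  · intro x
    refine (ht (θ x)).congr fun j => ?_
    rw [hA _ (hs j).1]

private lemma Dt.smooth {n : ℕ} {A : (E n → ℝ) → E n → ℝ} {h : E n → ℝ} (h1 : S1 h)
    (h2 : Sublinear h) : Dt A h (A h) :=
  ⟨fun _ => h, fun _ => 0, tendsto_const_nhds, fun _ => ⟨h1, h2⟩, fun j x => by simp,
    fun x => tendsto_const_nhds⟩

private lemma exists_Dt {n : ℕ} {A : (E n → ℝ) → E n → ℝ}
    (hS : ∀ h : E n → ℝ, S1 h → Sublinear h → Sublinear (A h))
    (hE : ∀ ε : ℝ, 0 < ε → ∃ K : ℝ, 0 ≤ K ∧ Est A ε K) {h : E n → ℝ} (hh : Sublinear h) :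
    ∃ g : E n → ℝ, Dt A h g ∧ Sublinear g := by
  have hp : ∀ j : ℕ, (0 : ℝ) < 1 / ((j : ℝ) + 1) := fun j => by positivity
  choose s hs1 hs2 hs3 using fun j : ℕ => exists_smooth hh (hp j)
  have hsS : ∀ j, S1 (s j) := fun j => ⟨(hs1 j).pos_hom, hs2 j⟩
  obtain ⟨R, hR0, hR⟩ := sph_bd hh
  have hsR : ∀ j, ∀ x : E n, ‖x‖ = 1 → |s j x| ≤ R + 1 := by
    intro j x hx
    have h1 := hs3 j x
    rw [hx, mul_one] at h1
    have h2 : 1 / ((j : ℝ) + 1) ≤ 1 := by
      rw [div_le_one (by positivity)]; linarith [Nat.cast_nonneg (α := ℝ) j]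
    have h3 := hR x hx
    rw [abs_le] at h1 h3 ⊢
    constructor <;> linarith [h1.1, h1.2, h3.1, h3.2]
  have hcau1 : ∀ x : E n, ‖x‖ = 1 → CauchySeq fun j => A (s j) x := by
    intro x hx
    rw [Metric.cauchySeq_iff]
    intro ε hε
    obtain ⟨K, hK0, hK⟩ := hE (ε / (2 * (R + 1))) (by positivity)
    obtain ⟨N, hN⟩ := exists_nat_gt (4 * (K + 1) / ε)
    refine ⟨N, fun i hi j hj => ?_⟩
    have hNpos : (0 : ℝ) < (N : ℝ) + 1 := by positivity
    have hb : ∀ k ≥ N, 1 / ((k : ℝ) + 1) ≤ 1 / ((N : ℝ) + 1) := by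
      intro k hk
      have : (N : ℝ) ≤ k := by exact_mod_cast hk
      exact one_div_le_one_div_of_le hNpos (by linarith)
    have hd : ∀ y : E n, ‖y‖ = 1 → |s i y - s j y| ≤ 2 / ((N : ℝ) + 1) := by
      intro y hy
      have h1 := hs3 i y
      have h2 := hs3 j y
      rw [hy, mul_one] at h1 h2
      have h3 := hb i hi
      have h4 := hb j hj
      have h5 : 2 / ((N : ℝ) + 1) = 1 / ((N : ℝ) + 1) + 1 / ((N : ℝ) + 1) := by ring
      rw [h5]
      rw [abs_le] at h1 h2 ⊢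
      constructor <;> linarith [h1.1, h1.2, h2.1, h2.2]
    have h1 := hK (s i) (s j) (R + 1) _ (hsS i) (hs1 i) (hsS j) (hs1 j) (hsR i) (hsR j) hd x hx
    rw [Real.dist_eq]
    refine lt_of_le_of_lt h1 ?_
    have e1 : ε / (2 * (R + 1)) * (R + 1) = ε / 2 := by field_simp
    rw [e1]
    have h2 : K * (2 / ((N : ℝ) + 1)) < ε / 2 := by
      rw [mul_div_assoc', div_lt_iff₀ hNpos]
      rw [div_lt_iff₀ hε] at hN
      nlinarith
    linarith
  have hlim : ∀ x : E n, ∃ l : ℝ, Tendsto (fun j => A (s j) x) atTop (𝓝 l) := by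
    intro x
    rcases eq_or_ne x 0 with rfl | hx
    · refine ⟨0, ?_⟩
      have : (fun j => A (s j) (0 : E n)) = fun _ => (0 : ℝ) := by
        funext j; exact (hS _ (hsS j) (hs1 j)).map_zero
      rw [this]; exact tendsto_const_nhds
    · have hx' : 0 < ‖x‖ := norm_pos_iff.2 hx
      obtain ⟨l, hl⟩ := cauchySeq_tendsto_of_complete (hcau1 (‖x‖⁻¹ • x)
        (by rw [norm_smul, norm_inv, norm_norm, inv_mul_cancel₀ hx'.ne']))
      refine ⟨‖x‖ * l, ?_⟩
      refine (hl.const_mul ‖x‖).congr fun j => ?_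
      rw [← (hS _ (hsS j) (hs1 j)).pos_hom _ hx'.le, smul_smul, mul_inv_cancel₀ hx'.ne', one_smul]
  choose g hg using hlim
  refine ⟨g, ⟨s, fun j => 1 / ((j : ℝ) + 1), tendsto_one_div_add_atTop_nhds_zero_nat,
    fun j => ⟨hsS j, hs1 j⟩, hs3, hg⟩, ⟨?_, ?_⟩⟩
  · intro c hc x
    refine tendsto_nhds_unique (hg (c • x)) ?_
    refine ((hg x).const_mul c).congr fun j => ?_
    rw [(hS _ (hsS j) (hs1 j)).pos_hom c hc]
  · intro x y
    exact le_of_tendsto_of_tendsto' (hg (x + y)) ((hg x).add (hg y))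
      fun j => (hS _ (hsS j) (hs1 j)).add_le x y

private lemma isRot_symm {n : ℕ} {θ : E n ≃ₗᵢ[ℝ] E n} (h : IsRot θ) : IsRot θ.symm := by
  unfold IsRot at h ⊢
  have h1 : (θ.symm.toLinearEquiv.toLinearMap : E n →ₗ[ℝ] E n) ∘ₗ
      (θ.toLinearEquiv.toLinearMap : E n →ₗ[ℝ] E n) = LinearMap.id := by
    ext1 x
    simp
  have h2 := congrArg LinearMap.det h1
  rw [LinearMap.det_comp, h, mul_one, LinearMap.det_id] at h2
  exact h2

theorem hXM : StXM := by
  intro n A hn hadd hrot hS hE'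
  have hE : ∀ ε : ℝ, 0 < ε → ∃ K : ℝ, 0 ≤ K ∧ Est A ε K := hE'
  choose G hG using fun K : ConvexBody (E n) => exists_Dt hS hE (supp_sublinear K)
  choose T hT using fun K : ConvexBody (E n) => exists_body (hG K).2
  refine ⟨T, ⟨?_, ?_, ?_⟩, ?_⟩
  · -- continuity
    rw [Metric.continuous_iff]
    intro K₀ ε hε
    obtain ⟨R, hR0, hR⟩ := sph_bd (supp_sublinear K₀)
    obtain ⟨C, hC0, hC⟩ := hE (ε / (4 * (R + 1))) (by positivity)
    refine ⟨min 1 (ε / (4 * (C + 1))), lt_min one_pos (by positivity), fun K hK => ?_⟩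
    have hK1 : dist K K₀ ≤ 1 := (hK.trans_le (min_le_left _ _)).le
    have hK2 : dist K K₀ ≤ ε / (4 * (C + 1)) := (hK.trans_le (min_le_right _ _)).le
    have hd : ∀ y : E n, ‖y‖ = 1 → |supp K y - supp K₀ y| ≤ dist K K₀ := by
      intro y hy
      have := abs_supp_sub_le K K₀ y
      rwa [hy, mul_one] at this
    have hR1 : ∀ y : E n, ‖y‖ = 1 → |supp K y| ≤ R + 1 := by
      intro y hy
      have h1 := hd y hy
      have h2 := hR y hy
      rw [abs_le] at h1 h2 ⊢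
      constructor <;> linarith [h1.1, h1.2, h2.1, h2.2]
    have hR2 : ∀ y : E n, ‖y‖ = 1 → |supp K₀ y| ≤ R + 1 := fun y hy => (hR y hy).trans (by linarith)
    have h1 := fun y hy => (hG K).1.close (hG K₀).1 hC hR1 hR2 hd y hy
    have h2 := hom_ext (hG K).2 (hG K₀).2 h1
    have e1 : ε / (4 * (R + 1)) * (R + 1) = ε / 4 := by field_simp
    have e2 : C * dist K K₀ ≤ ε / 4 := by
      calc C * dist K K₀ ≤ C * (ε / (4 * (C + 1))) := mul_le_mul_of_nonneg_left hK2 hC0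
        _ ≤ ε / 4 := by
          rw [mul_div_assoc', div_le_div_iff₀ (by positivity) (by norm_num)]
          nlinarith
    have h3 : dist (T K) (T K₀) ≤ ε / 2 := by
      refine dist_le_of_supp (by positivity) fun u => ?_
      rw [hT, hT]
      refine (h2 u).trans (mul_le_mul_of_nonneg_right ?_ (norm_nonneg u))
      rw [e1]; linarith
    linarith
  · intro K L u
    rw [hT, hT, hT]
    have h1 : supp (K + L) = fun z => supp K z + supp L z := by funext z; exact supp_add K L z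
    have h2 : Dt A (supp (K + L)) (fun z => G K z + G L z) := by
      rw [h1]; exact Dt.add hadd (hG K).1 (hG L).1
    have h3 := Dt.uniq hE (supp_sublinear (K + L)) (hG (K + L)).1 h2 (hG (K + L)).2
      (Sub_add (hG K).2 (hG L).2)
    rw [h3]
  · intro θ hθ K
    refine supp_inj ?_
    funext u
    rw [hT, supp_rot, hT]
    have h1 : supp (rot θ K) = fun w => supp K (θ.symm w) := by
      funext w; exact supp_rot θ K w
    have h2 : Dt A (supp (rot θ K)) (fun z => G K (θ.symm z)) := by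
      rw [h1]; exact Dt.rot θ.symm (hrot θ.symm (isRot_symm hθ)) (hG K).1
    have h3 := Dt.uniq hE (supp_sublinear (rot θ K)) (hG (rot θ K)).1 h2 (hG (rot θ K)).2
      (Sub_rot θ.symm (hG K).2)
    rw [h3]
  · intro K hK x
    rw [hT]
    have h1 : S1 (supp K) := ⟨(supp_sublinear K).pos_hom, hK⟩
    have h3 := Dt.uniq hE (supp_sublinear K) (hG K).1 (Dt.smooth h1 (supp_sublinear K)) (hG K).2
      (hS _ h1 (supp_sublinear K))
    rw [h3]

end Pool.Agent.Helper41.PM
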